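import Pool.Agent.Helper81.RP.Main

/-!
# Both questions of Bloch and Soulé and representations of quadratic monomial algebras

Over `ℤ/N` (over `ℤ` if `N = 0`), the schemes of `n`-dimensional representations of algebras with
finitely many generators `x_v` and relations `x_v x_w = 0` for some pairs `(v, w)` control all
schemes of finite type, for both questions, if `n ≥ 3`, but are controlled by the base if `n ≤ 2`.
For `n ≥ 3`, directed graphs with four layers are enough.
-/

set_option autoImplicit false

open AlgebraicGeometry CategoryTheory
open Pool.Agent.Helper81.HG Pool.Agent.Helper45.RM Pool.Agent.Helper81.RP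

namespace Pool.Agent.Helper81.Kept.MonomialAlgebras

universe u

theorem result (N : ℕ) :
    (∀ n, 3 ≤ n → Controls.{u} (LayeredReps N n) (FiniteType N)) ∧
    (∀ n, n ≤ 2 → Controls.{u} {Spec (CommRingCat.of (ZMod N))} (MonomialReps N n)) :=
  Pool.Agent.Helper81.RP.main N

end Pool.Agent.Helper81.Kept.MonomialAlgebras
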